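import Pool.Agent.Helper15.SB.Vp
import Pool.Agent.Helper18.CL.Defs

/-!
# CB for a prime `ℓ`, R1: decomposition of a pair in coprime pieces
-/

set_option autoImplicit false

namespace Pool.Agent.Helper15.CL

open NumberField Module UniqueFactorizationMonoid
open Pool.Agent.Helper4.CB Pool.Agent.Helper18.CL Pool.Agent.Helper15.SB

/-- the finite set of places dividing `l` or one of finitely many nonzero ideals -/
theorem exists_places (K : Type) [Field K] [NumberField K] (l : ℕ) (hl : l ≠ 0)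
    (CC : Finset (Ideal (𝓞 K))) (hCC : ⊥ ∉ CC) : ∃ S : Finset (Pl K),
      (∀ c ∈ CC, ∀ p : Pl K, c ≤ p.asIdeal → p ∈ S) ∧
      ∀ p : Pl K, (l : 𝓞 K) ∈ p.asIdeal → p ∈ S := by
  classical
  have h : ∀ I : Ideal (𝓞 K), I ≠ ⊥ → {p : Pl K | I ≤ p.asIdeal}.Finite := by
    intro I hI
    refine (Ideal.finite_factors hI).subset ?_
    intro p hp
    exact Ideal.dvd_iff_le.2 hp
  have hl' : Ideal.span {(l : 𝓞 K)} ≠ ⊥ := by
    rw [Ne, Ideal.span_singleton_eq_bot]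
    exact_mod_cast hl
  have hfin : (⋃ c ∈ CC, {p : Pl K | c ≤ p.asIdeal}).Finite :=
    Set.Finite.biUnion CC.finite_toSet fun c hc => h c fun h0 => hCC (h0 ▸ hc)
  refine ⟨hfin.toFinset ∪ (h _ hl').toFinset, ?_, ?_⟩
  · intro c hc p hp
    rw [Finset.mem_union, Set.Finite.mem_toFinset]
    exact Or.inl (Set.mem_biUnion hc hp)
  · intro p hp
    rw [Finset.mem_union, Set.Finite.mem_toFinset, Set.Finite.mem_toFinset]
    refine Or.inr ?_
    rw [Set.mem_ofPred_eq, Ideal.span_singleton_le_iff_mem]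
    exact hp

/-- representation of one of the two numbers -/
theorem rep_one (K : Type) [Field K] [NumberField K] (l : ℕ) (hl : 0 < l) (S : Finset (Pl K))
    (W : Finset (𝓞 K)) (hW : ∀ x : 𝓞 K, x ≠ 0 → (∀ p : Pl K, p ∉ S → l ∣ vp p x) →
      ∃ w ∈ W, ∃ y z : 𝓞 K, y ≠ 0 ∧ z ≠ 0 ∧ x * y ^ l = w * z ^ l)
    (a : K) (α d : 𝓞 K) (hα : α ≠ 0) (hd : d ≠ 0) (ha : a * d = α)
    {ι : Type*} [Fintype ι] (g : ι → 𝓞 K) (hg : ∀ i, g i ≠ 0) (m : ι → ℕ)
    (h : ∀ p : Pl K, p ∉ S → l ∣ vp p (α * d ^ (l - 1)) + (l - 1) * ∑ i, m i * vp p (g i)) :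
    ∃ w ∈ W, ∃ c : K, c ≠ 0 ∧ a = (w : K) * (∏ i, (g i : K) ^ m i) * c ^ l := by
  classical
  set a0 : 𝓞 K := α * d ^ (l - 1) with ha0
  have ha00 : a0 ≠ 0 := mul_ne_zero hα (pow_ne_zero _ hd)
  set A : 𝓞 K := ∏ i, g i ^ m i with hA
  have hA0 : A ≠ 0 := Finset.prod_ne_zero_iff.2 fun i _ => pow_ne_zero _ (hg i)
  obtain ⟨w, hw, y, z, hy, hz, hyz⟩ := hW (a0 * A ^ (l - 1)) (mul_ne_zero ha00 (pow_ne_zero _ hA0)) (by
    intro p hp
    rw [vp_mul p ha00 (pow_ne_zero _ hA0), vp_pow p hA0, hA,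
      vp_prod p _ _ fun i _ => pow_ne_zero _ (hg i)]
    have h1 := h p hp
    convert h1 using 3
    apply Finset.sum_congr rfl
    intro i _
    rw [vp_pow p (hg i)])
  have hc : ∀ x : 𝓞 K, x ≠ 0 → (x : K) ≠ 0 := fun x hx => by simpa using hx
  have hA' : ((A : 𝓞 K) : K) = ∏ i, (g i : K) ^ m i := by
    rw [hA]
    push_cast
    rfl
  refine ⟨w, hw, (z : K) / ((A : K) * y * d), ?_, ?_⟩
  · exact div_ne_zero (hc _ hz) (mul_ne_zero (mul_ne_zero (hc _ hA0) (hc _ hy)) (hc _ hd))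
  · rw [← hA']
    have hyz' : (α : K) * (d : K) ^ (l - 1) * (A : K) ^ (l - 1) * (y : K) ^ l =
        (w : K) * (z : K) ^ l := by
      have h2 := congrArg (fun x : 𝓞 K => (x : K)) hyz
      simp only [ha0] at h2
      push_cast at h2
      exact h2
    have hdl : (d : K) ^ l = (d : K) ^ (l - 1) * d := by
      rw [← pow_succ, Nat.sub_add_cancel hl]
    have hAl : (A : K) ^ l = (A : K) ^ (l - 1) * A := by
      rw [← pow_succ, Nat.sub_add_cancel hl]
    have h3 : ((A : K) * y * d) ^ l ≠ 0 :=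
      pow_ne_zero _ (mul_ne_zero (mul_ne_zero (hc _ hA0) (hc _ hy)) (hc _ hd))
    rw [div_pow, ← mul_div_assoc, eq_div_iff h3, mul_pow, mul_pow]
    calc a * ((A : K) ^ l * (y : K) ^ l * (d : K) ^ l)
        = (a * d) * (d : K) ^ (l - 1) * (A : K) ^ (l - 1) * (y : K) ^ l * A := by
          rw [hdl, hAl]; ring
      _ = (w : K) * (z : K) ^ l * A := by rw [ha, hyz']
      _ = (w : K) * (A : K) * (z : K) ^ l := by ring

/-- **R1, existence.** -/
theorem exists_decomp (K : Type) [Field K] [NumberField K] (l : ℕ) (hl : l.Prime) :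
    ∃ (N1 : ℕ) (W : Finset (𝓞 K)), N1 ≠ 0 ∧ (0 : 𝓞 K) ∉ W ∧
      ∀ (J : ℕ) (a b : K), a ≠ 0 → b ≠ 0 →
      (∀ p : Pl K, BadL l J p → p.valuation K a = 1 ∧ p.valuation K b = 1) →
      ∃ (g : Fin l × Fin l → 𝓞 K) (G : Fin l × Fin l → Ideal (𝓞 K)),
        (∀ i, g i ≠ 0 ∧ g i ∈ G i ∧ Ideal.span {(N1 : 𝓞 K)} * G i ≤ Ideal.span {g i}) ∧
        (∀ i j, i ≠ j → IsCoprime (G i) (G j)) ∧
        (∀ i j, i ≠ j → ∀ p : Pl K, G i ≤ p.asIdeal →
          ¬ BadL l J p ∧ (l : 𝓞 K) ∉ p.asIdeal ∧ g j ∉ p.asIdeal) ∧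
        (∃ w ∈ W, ∃ c : K, c ≠ 0 ∧ a = (w : K) * (∏ i, (g i : K) ^ (i.1 : ℕ)) * c ^ l) ∧
        (∃ w ∈ W, ∃ c : K, c ≠ 0 ∧ b = (w : K) * (∏ i, (g i : K) ^ (i.2 : ℕ)) * c ^ l) := by
  classical
  obtain ⟨CC, hCC0, hCC⟩ := exists_class_reps K
  obtain ⟨S, hS1, hS2⟩ := exists_places K l hl.ne_zero CC hCC0
  obtain ⟨W, hW0, hW⟩ := exists_reps K l hl.pos S
  have hN1 : ∀ c ∈ CC, (((∏ c ∈ CC, Ideal.absNorm c : ℕ)) : 𝓞 K) ∈ c := by
    intro c hc
    obtain ⟨r, hr⟩ := Finset.dvd_prod_of_mem (fun c : Ideal (𝓞 K) => Ideal.absNorm c) hc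
    rw [hr]
    push_cast
    exact Ideal.mul_mem_right _ _ (Ideal.absNorm_mem c)
  refine ⟨∏ c ∈ CC, Ideal.absNorm c, W, ?_, hW0, ?_⟩
  · rw [Finset.prod_ne_zero_iff]
    intro c hc h0
    rw [Ideal.absNorm_eq_zero_iff] at h0
    exact hCC0 (h0 ▸ hc)
  intro J a b ha hb hbad
  -- integral representatives
  obtain ⟨α, da, hda, hαa⟩ := IsFractionRing.div_surjective (A := 𝓞 K) a
  obtain ⟨β, db, hdb, hβb⟩ := IsFractionRing.div_surjective (A := 𝓞 K) b
  have hda0 : da ≠ 0 := nonZeroDivisors.ne_zero hda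
  have hdb0 : db ≠ 0 := nonZeroDivisors.ne_zero hdb
  have hc : ∀ x : 𝓞 K, x ≠ 0 → (x : K) ≠ 0 := fun x hx => by simpa using hx
  have hαa' : a * (da : K) = (α : K) := by
    rw [← hαa]
    exact div_mul_cancel₀ _ (hc _ hda0)
  have hβb' : b * (db : K) = (β : K) := by
    rw [← hβb]
    exact div_mul_cancel₀ _ (hc _ hdb0)
  have hα0 : α ≠ 0 := by
    intro h
    rw [h] at hαa'
    exact mul_ne_zero ha (hc _ hda0) (hαa'.trans (map_zero (algebraMap (𝓞 K) K)))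
  have hβ0 : β ≠ 0 := by
    intro h
    rw [h] at hβb'
    exact mul_ne_zero hb (hc _ hdb0) (hβb'.trans (map_zero (algebraMap (𝓞 K) K)))
  set a0 : 𝓞 K := α * da ^ (l - 1) with ha0
  set b0 : 𝓞 K := β * db ^ (l - 1) with hb0
  have ha00 : a0 ≠ 0 := mul_ne_zero hα0 (pow_ne_zero _ hda0)
  have hb00 : b0 ≠ 0 := mul_ne_zero hβ0 (pow_ne_zero _ hdb0)
  have hdvd : ∀ (x : K) (ξ δ : 𝓞 K), ξ ≠ 0 → δ ≠ 0 → x * (δ : K) = (ξ : K) → ∀ p : Pl K,
      p.valuation K x = 1 → l ∣ vp p (ξ * δ ^ (l - 1)) := by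
    intro x ξ δ hξ hδ hx p hp
    have h1 : p.valuation K (ξ : K) = p.valuation K (δ : K) := by
      rw [← hx, map_mul, hp, one_mul]
    have h2 := vp_eq_of_valuation p hξ hδ h1
    rw [vp_mul p hξ (pow_ne_zero _ hδ), vp_pow p hδ, h2]
    refine ⟨vp p δ, ?_⟩
    have h3 : l - 1 + 1 = l := Nat.sub_add_cancel hl.pos
    calc vp p δ + (l - 1) * vp p δ = (l - 1 + 1) * vp p δ := by ring
      _ = l * vp p δ := by rw [h3]
  -- the places involved
  have hab0 : Ideal.span {a0 * b0} ≠ ⊥ := by simpa using mul_ne_zero ha00 hb00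
  set T : Finset (Pl K) := (Ideal.finite_factors hab0).toFinset.filter
    fun p => p ∉ S ∧ ¬ (l ∣ vp p a0 ∧ l ∣ vp p b0) with hT
  have hTmem : ∀ p : Pl K, p ∈ T ↔ p ∉ S ∧ ¬ (l ∣ vp p a0 ∧ l ∣ vp p b0) := by
    intro p
    rw [hT, Finset.mem_filter, Set.Finite.mem_toFinset, Set.mem_ofPred_eq]
    refine ⟨fun h => h.2, fun h => ⟨?_, h⟩⟩
    rw [Ideal.dvd_iff_le, Ideal.span_singleton_le_iff_mem]
    by_contra h1
    have h2 : a0 ∉ p.asIdeal := fun h3 => h1 (Ideal.mul_mem_right _ _ h3)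
    have h3 : b0 ∉ p.asIdeal := fun h3 => h1 (Ideal.mul_mem_left _ _ h3)
    rw [← vp_eq_zero_iff p ha00] at h2
    rw [← vp_eq_zero_iff p hb00] at h3
    apply h.2
    rw [h2, h3]
    exact ⟨dvd_zero _, dvd_zero _⟩
  let cls : Pl K → Fin l × Fin l := fun p =>
    (⟨vp p a0 % l, Nat.mod_lt _ hl.pos⟩, ⟨vp p b0 % l, Nat.mod_lt _ hl.pos⟩)
  let G : Fin l × Fin l → Ideal (𝓞 K) := fun i => ∏ p ∈ T.filter (fun p => cls p = i), p.asIdeal
  have hG0 : ∀ i, G i ≠ ⊥ := fun i => Finset.prod_ne_zero_iff.2 fun p _ => p.ne_bot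
  have hvG : ∀ i (p : Pl K), vI p (G i) = if p ∈ T ∧ cls p = i then 1 else 0 := by
    intro i p
    simp only [G]
    rw [vI_prod p _ _ fun q _ => q.ne_bot]
    have h1 : ∀ q ∈ T.filter (fun p => cls p = i), vI p q.asIdeal = if p = q then 1 else 0 := by
      intro q _
      by_cases h : p = q
      · subst h
        rw [if_pos rfl, vI_self]
      · rw [if_neg h, vI_of_ne p q h]
    rw [Finset.sum_congr rfl h1]
    simp only [Finset.sum_ite_eq, Finset.mem_filter]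
  choose c hc1 g hg0 hg using fun i => hCC (G i) (hG0 i)
  have hc0 : ∀ i, c i ≠ ⊥ := fun i h => hCC0 (h ▸ hc1 i)
  have hcS : ∀ i (p : Pl K), p ∉ S → vI p (c i) = 0 := by
    intro i p hp
    rw [vI_eq_zero_iff p (hc0 i)]
    exact fun h => hp (hS1 _ (hc1 i) p h)
  have hvg : ∀ i (p : Pl K), p ∉ S → vp p (g i) = if p ∈ T ∧ cls p = i then 1 else 0 := by
    intro i p hp
    rw [vp_def, hg, vI_mul p (hG0 i) (hc0 i), hcS i p hp, hvG, add_zero]
  have hGp : ∀ i (p : Pl K), G i ≤ p.asIdeal → p ∈ T ∧ cls p = i := by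
    intro i p hp
    by_contra h
    have h1 := hvG i p
    rw [if_neg h, vI_eq_zero_iff p (hG0 i)] at h1
    exact h1 hp
  have hsum : ∀ (p : Pl K), p ∉ S → ∀ m : Fin l × Fin l → ℕ,
      ∑ i, m i * vp p (g i) = if p ∈ T then m (cls p) else 0 := by
    intro p hp m
    have h1 : ∀ i ∈ (Finset.univ : Finset (Fin l × Fin l)), m i * vp p (g i) =
        if cls p = i then (if p ∈ T then m (cls p) else 0) else 0 := by
      intro i _
      rw [hvg i p hp]
      by_cases h2 : cls p = i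
      · by_cases h3 : p ∈ T
        · rw [if_pos ⟨h3, h2⟩, if_pos h2, if_pos h3, mul_one, h2]
        · rw [if_neg fun h => h3 h.1, if_pos h2, if_neg h3, mul_zero]
      · rw [if_neg fun h => h2 h.2, if_neg h2, mul_zero]
    rw [Finset.sum_congr rfl h1, Finset.sum_ite_eq, if_pos (Finset.mem_univ _)]
  have hmod : ∀ v : ℕ, l ∣ v + (l - 1) * (v % l) := by
    intro v
    have h1 : v + (l - 1) * (v % l) = l * (v / l) + l * (v % l) := by
      have h2 := Nat.div_add_mod v l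
      have h3 : l - 1 + 1 = l := Nat.sub_add_cancel hl.pos
      have h4 : l * (v % l) = (l - 1) * (v % l) + v % l := by
        calc l * (v % l) = (l - 1 + 1) * (v % l) := by rw [h3]
          _ = (l - 1) * (v % l) + v % l := by ring
      omega
    rw [h1]
    exact Dvd.dvd.add (dvd_mul_right _ _) (dvd_mul_right _ _) 
  refine ⟨g, G, ?_, ?_, ?_, ?_, ?_⟩
  · intro i
    refine ⟨hg0 i, ?_, ?_⟩
    · rw [← Ideal.span_singleton_le_iff_mem, hg]
      exact Ideal.mul_le_left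
    · rw [hg, mul_comm]
      apply Ideal.mul_mono_right
      rw [Ideal.span_singleton_le_iff_mem]
      exact hN1 _ (hc1 i)
  · intro i j hij
    apply IsCoprime.prod_left
    intro p hp
    apply IsCoprime.prod_right
    intro q hq
    rw [Finset.mem_filter] at hp hq
    apply Ideal.isCoprime_of_isMaximal
    intro h
    have h1 : p = q := IsDedekindDomain.HeightOneSpectrum.ext h
    apply hij
    rw [← hp.2, ← hq.2, h1]
  · intro i j hij p hp
    obtain ⟨h1, h2⟩ := hGp i p hp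
    have h3 := (hTmem p).1 h1
    refine ⟨?_, fun h => h3.1 (hS2 p h), ?_⟩
    · intro h
      apply h3.2
      exact ⟨hdvd a α da hα0 hda0 hαa' p (hbad p h).1, hdvd b β db hβ0 hdb0 hβb' p (hbad p h).2⟩
    · rw [← vp_eq_zero_iff p (hg0 j), hvg j p h3.1, if_neg]
      rintro ⟨_, h4⟩
      exact hij (h2.symm.trans h4)
  · apply rep_one K l hl.pos S W hW a α da hα0 hda0 hαa' g hg0 fun i => (i.1 : ℕ)
    intro p hp
    rw [hsum p hp]
    by_cases h1 : p ∈ T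
    · rw [if_pos h1]
      exact hmod _
    · rw [if_neg h1, mul_zero, add_zero]
      by_contra h2
      exact h1 ((hTmem p).2 ⟨hp, fun h => h2 h.1⟩)
  · apply rep_one K l hl.pos S W hW b β db hβ0 hdb0 hβb' g hg0 fun i => (i.2 : ℕ)
    intro p hp
    rw [hsum p hp]
    by_cases h1 : p ∈ T
    · rw [if_pos h1]
      exact hmod _
    · rw [if_neg h1, mul_zero, add_zero]
      by_contra h2
      exact h1 ((hTmem p).2 ⟨hp, fun h => h2 h.2⟩)

end Pool.Agent.Helper15.CL
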